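import Mathlib

set_option autoImplicit false

/-! Bessel's inequality for power series in `e(z)` that are `O(y^(-3/4))`, and the exceptional set. -/

namespace Pool.Agent.N903.HW

open Finset Complex MeasureTheory

/-- `e(w) = exp (2 π i w)` -/
noncomputable def e (w : ℂ) : ℂ := Complex.exp (2 * Real.pi * Complex.I * w)

/-- the theta function `θ(z) = Σ_{n ∈ ℤ} e(n² z)` -/
noncomputable def theta (z : ℂ) : ℂ := ∑' n : ℤ, e ((n : ℂ) ^ 2 * z)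

local instance : Fact (0 < (1 : ℝ)) := ⟨one_pos⟩

/-- Bessel's inequality on the circle for absolutely convergent series -/
theorem bessel (b : ℕ → ℂ) (hb : Summable (fun n => ‖b n‖)) {M : ℝ} (hM : 0 ≤ M)
    (hg : ∀ x : ℝ, ‖∑' n : ℕ, b n * Complex.exp (2 * Real.pi * Complex.I * n * x)‖ ≤ M) (N : ℕ) :
    ∑ n ∈ range N, ‖b n‖ ^ 2 ≤ M ^ 2 := by
  have hsum : Summable (fun n : ℕ => (b n • fourier (T := (1 : ℝ)) (n : ℤ) : C(AddCircle (1 : ℝ), ℂ))) := by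
    apply Summable.of_norm
    refine hb.congr fun n => ?_
    rw [norm_smul, fourier_norm, mul_one]
  set G : C(AddCircle (1 : ℝ), ℂ) := ∑' n : ℕ, (b n • fourier (T := (1 : ℝ)) (n : ℤ)) with hG
  have hGs : HasSum (fun n : ℕ => (b n • fourier (T := (1 : ℝ)) (n : ℤ) : C(AddCircle (1 : ℝ), ℂ))) G := hsum.hasSum
  have hGle : ‖G‖ ≤ M := by
    rw [ContinuousMap.norm_le _ hM]
    intro t
    obtain ⟨x, rfl⟩ := QuotientAddGroup.mk_surjective t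
    have h1 : G (x : AddCircle (1 : ℝ)) = ∑' n : ℕ, b n * Complex.exp (2 * Real.pi * Complex.I * n * x) := by
      have h2 := (hGs.mapL (ContinuousMap.evalCLM ℂ (x : AddCircle (1 : ℝ)))).tsum_eq
      have h3 : ContinuousMap.evalCLM ℂ (x : AddCircle (1 : ℝ)) G = G (x : AddCircle (1 : ℝ)) := rfl
      rw [h3] at h2
      rw [← h2]
      congr 1
      ext n
      have h4 : ContinuousMap.evalCLM ℂ (x : AddCircle (1 : ℝ)) (b n • fourier (T := (1 : ℝ)) (n : ℤ)) =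
        b n * fourier (T := (1 : ℝ)) (n : ℤ) (x : AddCircle (1 : ℝ)) := rfl
      rw [h4, fourier_coe_apply]
      congr 2
      push_cast
      ring
    exact h1 ▸ hg x
  set L : C(AddCircle (1 : ℝ), ℂ) →L[ℂ] Lp ℂ 2 (@AddCircle.haarAddCircle (1 : ℝ) _) :=
    ContinuousMap.toLp (E := ℂ) 2 AddCircle.haarAddCircle ℂ with hL
  have hLn : ‖L G‖ ≤ M := by
    refine le_trans ?_ hGle
    have h1 := ContinuousMap.toLp_norm_le (E := ℂ) (𝕜 := ℂ) (p := 2) (μ := @AddCircle.haarAddCircle (1 : ℝ) _)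
    have h2 := L.le_opNorm G
    have h3 : ‖L‖ ≤ 1 := by
      refine h1.trans ?_
      simp [measureUnivNNReal]
    nlinarith [norm_nonneg G]
  have horth := @orthonormal_fourier (1 : ℝ) _
  have hin : ∀ n : ℕ, inner ℂ (fourierLp (T := (1 : ℝ)) 2 (n : ℤ)) (L G) = b n := by
    intro n
    have h1 := (hGs.mapL L).mapL (innerSL ℂ (fourierLp (T := (1 : ℝ)) 2 (n : ℤ)))
    have h2 : (fun m : ℕ => (innerSL ℂ (fourierLp (T := (1 : ℝ)) 2 (n : ℤ))) (L (b m • fourier (T := (1 : ℝ)) (m : ℤ)))) =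
        fun m : ℕ => if m = n then b n else 0 := by
      ext m
      rw [innerSL_apply_apply, map_smul, inner_smul_right]
      have h3 := orthonormal_iff_ite.1 horth (n : ℤ) (m : ℤ)
      have h4 : L (fourier (T := (1 : ℝ)) (m : ℤ)) = fourierLp (T := (1 : ℝ)) 2 (m : ℤ) := rfl
      rw [h4, h3]
      by_cases hmn : m = n
      · subst hmn
        simp
      · rw [if_neg hmn, if_neg (show ¬ ((n : ℤ) = (m : ℤ)) from fun h => hmn (by exact_mod_cast h.symm)), mul_zero]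
    rw [h2] at h1
    exact h1.unique (hasSum_ite_eq n (b n))
  have h5 := horth.sum_inner_products_le (L G) (s := (range N).map ⟨fun n : ℕ => (n : ℤ), Nat.cast_injective⟩)
  rw [sum_map] at h5
  simp only [Function.Embedding.coeFn_mk, hin] at h5
  refine h5.trans ?_
  exact pow_le_pow_left₀ (norm_nonneg _) hLn 2

/-- **Mean square of the coefficients.** If `f(z) = Σ a(n) e(nz)` in the upper half plane and `y^(3/4) |f(z)| ≤ C`, then
`Σ_{n < N} |a(n)|² ≤ e^(4π) C² N^(3/2)`. -/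
theorem mean_square (f : ℂ → ℂ) (a : ℕ → ℂ) {C : ℝ}
    (hf : ∀ z : ℂ, 0 < z.im → HasSum (fun n : ℕ => a n * e (n * z)) (f z))
    (hC : ∀ z : ℂ, 0 < z.im → z.im ^ (3 / 4 : ℝ) * ‖f z‖ ≤ C) (N : ℕ) (hN : 1 ≤ N) :
    ∑ n ∈ range N, ‖a n‖ ^ 2 ≤ Real.exp (4 * Real.pi) * C ^ 2 * (N : ℝ) ^ (3 / 2 : ℝ) := by
  have hN0 : (0 : ℝ) < N := by exact_mod_cast hN
  obtain ⟨y, hy⟩ : ∃ y : ℝ, y = 1 / N := ⟨_, rfl⟩
  have hy0 : 0 < y := by rw [hy]; positivity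
  have hnorm : ∀ (n : ℕ) (x : ℝ), e (n * (x + y * Complex.I)) =
      (Real.exp (-(2 * Real.pi * n * y)) : ℂ) * Complex.exp (2 * Real.pi * Complex.I * n * x) := by
    intro n x
    unfold e
    rw [Complex.ofReal_exp, ← Complex.exp_add]
    congr 1
    push_cast
    linear_combination (2 * Real.pi * n * y : ℂ) * Complex.I_sq
  have him : ∀ x : ℝ, ((x : ℂ) + y * Complex.I).im = y := by
    intro x
    simp
  have hC0 : 0 ≤ C := by
    have := hC (Complex.I) (by simp)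
    have h2 : 0 ≤ Complex.I.im ^ (3 / 4 : ℝ) * ‖f Complex.I‖ := by
      apply mul_nonneg _ (norm_nonneg _)
      simp
    linarith
  have hyp : 0 < y ^ (3 / 4 : ℝ) := Real.rpow_pos_of_pos hy0 _
  have hb := bessel (fun n => a n * (Real.exp (-(2 * Real.pi * n * y)) : ℂ)) (by
    have h1 := (hf (y * Complex.I) (by simpa using hy0)).summable.norm
    refine h1.congr fun n => ?_
    have h2 := hnorm n 0
    rw [Complex.ofReal_zero, zero_add, mul_zero, Complex.exp_zero, mul_one] at h2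
    rw [h2]) (M := C / y ^ (3 / 4 : ℝ)) (by positivity) (by
    intro x
    have h1 := hf (x + y * Complex.I) (by rw [him]; exact hy0)
    have h2 : (fun n : ℕ => a n * e (n * ((x : ℂ) + y * Complex.I))) = fun n : ℕ =>
        a n * (Real.exp (-(2 * Real.pi * n * y)) : ℂ) * Complex.exp (2 * Real.pi * Complex.I * n * x) := by
      ext n
      rw [hnorm]
      ring
    rw [h2] at h1
    rw [h1.tsum_eq, le_div_iff₀ hyp, mul_comm]
    have h3 := hC (x + y * Complex.I) (by rw [him]; exact hy0)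
    rwa [him] at h3) N
  have h4 : ∑ n ∈ range N, ‖a n‖ ^ 2 ≤ Real.exp (4 * Real.pi) *
      ∑ n ∈ range N, ‖a n * (Real.exp (-(2 * Real.pi * n * y)) : ℂ)‖ ^ 2 := by
    rw [mul_sum]
    apply sum_le_sum
    intro n hn
    rw [mem_range] at hn
    rw [norm_mul, mul_pow, Complex.norm_real, Real.norm_eq_abs, abs_of_pos (Real.exp_pos _), ← Real.exp_nat_mul]
    have h5 : 1 ≤ Real.exp (4 * Real.pi) * Real.exp ((2 : ℕ) * -(2 * Real.pi * n * y)) := by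
      rw [← Real.exp_add]
      apply Real.one_le_exp
      have h6 : (n : ℝ) * y ≤ 1 := by
        rw [hy, mul_one_div, div_le_one hN0]
        exact_mod_cast hn.le
      push_cast
      nlinarith [Real.pi_pos]
    nlinarith [sq_nonneg ‖a n‖]
  refine h4.trans ?_
  have h7 : (C / y ^ (3 / 4 : ℝ)) ^ 2 = C ^ 2 * (N : ℝ) ^ (3 / 2 : ℝ) := by
    rw [div_pow, hy, one_div, Real.inv_rpow hN0.le, ← Real.rpow_natCast ((N : ℝ) ^ (3 / 4 : ℝ))⁻¹ 2, Real.inv_rpow (by positivity),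
      ← Real.rpow_mul hN0.le, div_inv_eq_mul]
    norm_num
  rw [h7] at hb
  nlinarith [Real.exp_pos (4 * Real.pi)]

/-- the exceptional set -/
theorem exceptional {K : ℝ} (hK : 0 ≤ K) {ε : ℝ} (hε : 0 < ε) (hε2 : ε < 1 / 2) :
    ∃ C : ℝ, 0 ≤ C ∧ ∀ a : ℕ → ℂ, (∀ N : ℕ, 1 ≤ N → ∑ n ∈ range N, ‖a n‖ ^ 2 ≤ K * (N : ℝ) ^ (3 / 2 : ℝ)) →
      ∀ X : ℕ, ({t : ℕ | 1 ≤ t ∧ t ≤ X ∧ ¬ ‖a t‖ ≤ (t : ℝ) ^ (1 / 4 + ε)}.ncard : ℝ) ≤
        C * (X : ℝ) ^ (1 - 2 * ε) := by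
  obtain ⟨s, hs⟩ : ∃ s, s = 1 - 2 * ε := ⟨_, rfl⟩
  have hs0 : 0 < s := by rw [hs]; linarith
  have h2s : (1 / 2 : ℝ) ^ s < 1 := Real.rpow_lt_one (by norm_num) (by norm_num) hs0
  have h2s0 : 0 < (1 / 2 : ℝ) ^ s := Real.rpow_pos_of_pos (by norm_num) _
  obtain ⟨C, hCdef⟩ : ∃ C : ℝ, C = 8 * K / (1 - (1 / 2 : ℝ) ^ s) := ⟨_, rfl⟩
  have hC0 : 0 ≤ C := by
    rw [hCdef]
    apply div_nonneg (by linarith) (by linarith)
  have hCeq : C * (1 / 2 : ℝ) ^ s + 8 * K = C := by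
    rw [hCdef]
    have : (1 - (1 / 2 : ℝ) ^ s) ≠ 0 := by linarith
    field_simp
    ring
  refine ⟨C, hC0, fun a ha => ?_⟩
  rw [← hs]
  intro X
  induction X using Nat.strong_induction_on with
  | _ X ih =>
  rcases Nat.eq_zero_or_pos X with rfl | hX
  · have h1 : {t : ℕ | 1 ≤ t ∧ t ≤ 0 ∧ ¬ ‖a t‖ ≤ (t : ℝ) ^ (1 / 4 + ε)} = ∅ := by
      ext t
      simp only [Set.mem_ofPred_eq, Set.mem_empty_iff_false, iff_false]
      omega
    rw [h1, Set.ncard_empty]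
    simp only [Nat.cast_zero]
    apply mul_nonneg hC0
    exact Real.rpow_nonneg le_rfl _
  have hX0 : (0 : ℝ) < X := by exact_mod_cast hX
  have hX1 : (1 : ℝ) ≤ X := by exact_mod_cast hX
  have ih2 := ih (X / 2) (Nat.div_lt_self hX (by norm_num))
  have hq : ((X / 2 : ℕ) : ℝ) ≤ X * (1 / 2) := by
    have := Nat.cast_div_le (α := ℝ) (m := X) (n := 2)
    push_cast at this
    linarith
  have h3 : ((X / 2 : ℕ) : ℝ) ^ s ≤ (X : ℝ) ^ s * (1 / 2 : ℝ) ^ s := by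
    rw [← Real.mul_rpow hX0.le (by norm_num)]
    exact Real.rpow_le_rpow (by positivity) hq hs0.le
  set S : Finset ℕ := (Ioc (X / 2) X).filter (fun t => ¬ ‖a t‖ ≤ (t : ℝ) ^ (1 / 4 + ε)) with hS
  have hsplit : {t : ℕ | 1 ≤ t ∧ t ≤ X ∧ ¬ ‖a t‖ ≤ (t : ℝ) ^ (1 / 4 + ε)} ⊆
      {t : ℕ | 1 ≤ t ∧ t ≤ X / 2 ∧ ¬ ‖a t‖ ≤ (t : ℝ) ^ (1 / 4 + ε)} ∪ (S : Set ℕ) := by
    rintro t ⟨h4, h5, h6⟩
    by_cases h7 : t ≤ X / 2
    · exact Or.inl ⟨h4, h7, h6⟩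
    · refine Or.inr ?_
      rw [hS, mem_coe, mem_filter, mem_Ioc]
      exact ⟨⟨by omega, h5⟩, h6⟩
  have hfin : {t : ℕ | 1 ≤ t ∧ t ≤ X / 2 ∧ ¬ ‖a t‖ ≤ (t : ℝ) ^ (1 / 4 + ε)}.Finite := by
    apply (Set.finite_Icc 1 (X / 2)).subset
    intro m hm
    exact ⟨hm.1, hm.2.1⟩
  have hcard := (Set.ncard_le_ncard hsplit (hfin.union S.finite_toSet)).trans (Set.ncard_union_le _ _)
  rw [Set.ncard_coe_finset] at hcard
  have hcard' : ({t : ℕ | 1 ≤ t ∧ t ≤ X ∧ ¬ ‖a t‖ ≤ (t : ℝ) ^ (1 / 4 + ε)}.ncard : ℝ) ≤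
      ({t : ℕ | 1 ≤ t ∧ t ≤ X / 2 ∧ ¬ ‖a t‖ ≤ (t : ℝ) ^ (1 / 4 + ε)}.ncard : ℝ) + (#S : ℝ) := by
    exact_mod_cast hcard
  -- the number of elements of `S`
  obtain ⟨β, hβ⟩ : ∃ β : ℝ, β = 1 / 2 + 2 * ε := ⟨_, rfl⟩
  have hlow : (#S : ℝ) * ((X : ℝ) * (1 / 2)) ^ β ≤ K * ((X + 1 : ℕ) : ℝ) ^ (3 / 2 : ℝ) := by
    refine le_trans ?_ (ha (X + 1) (by omega))
    rw [← nsmul_eq_mul]
    refine le_trans (card_nsmul_le_sum S (fun t => ‖a t‖ ^ 2) _ ?_) ?_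
    · intro t ht
      rw [hS, mem_filter, mem_Ioc] at ht
      obtain ⟨⟨h4, h5⟩, h6⟩ := ht
      push Not at h6
      have h7 : (X : ℝ) * (1 / 2) ≤ t := by
        have : X ≤ 2 * t := by omega
        have : (X : ℝ) ≤ 2 * t := by exact_mod_cast this
        linarith
      have h8 : (0 : ℝ) ≤ (t : ℝ) ^ (1 / 4 + ε) := by positivity
      calc ((X : ℝ) * (1 / 2)) ^ β ≤ (t : ℝ) ^ β := Real.rpow_le_rpow (by positivity) h7 (by rw [hβ]; linarith)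
        _ = ((t : ℝ) ^ (1 / 4 + ε)) ^ 2 := by
          rw [← Real.rpow_natCast, ← Real.rpow_mul (by positivity), hβ]
          congr 1
          push_cast
          ring
        _ ≤ ‖a t‖ ^ 2 := pow_le_pow_left₀ h8 h6.le 2
    · apply sum_le_sum_of_subset_of_nonneg
      · intro t ht
        rw [hS, mem_filter, mem_Ioc] at ht
        rw [mem_range]
        omega
      · intro i _ _
        positivity
  have hup : K * ((X + 1 : ℕ) : ℝ) ^ (3 / 2 : ℝ) ≤ 8 * K * (X : ℝ) ^ s * ((X : ℝ) * (1 / 2)) ^ β := by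
    have h4 : ((X + 1 : ℕ) : ℝ) ^ (3 / 2 : ℝ) ≤ (2 : ℝ) ^ (3 / 2 : ℝ) * (X : ℝ) ^ (3 / 2 : ℝ) := by
      rw [← Real.mul_rpow (by norm_num) hX0.le]
      apply Real.rpow_le_rpow (by positivity) _ (by norm_num)
      push_cast
      linarith
    have h5 : (X : ℝ) ^ s * ((X : ℝ) * (1 / 2)) ^ β = (X : ℝ) ^ (3 / 2 : ℝ) * (1 / 2 : ℝ) ^ β := by
      rw [Real.mul_rpow hX0.le (by norm_num), ← mul_assoc, ← Real.rpow_add hX0]
      congr 2
      rw [hs, hβ]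
      ring
    have h6 : (2 : ℝ) ^ (3 / 2 : ℝ) ≤ 8 * (1 / 2 : ℝ) ^ β := by
      have e1 : (8 : ℝ) = (2 : ℝ) ^ (3 : ℝ) := by norm_num
      rw [e1, one_div, Real.inv_rpow (by norm_num), ← Real.rpow_neg (by norm_num), ← Real.rpow_add (by norm_num)]
      apply Real.rpow_le_rpow_of_exponent_le (by norm_num)
      rw [hβ]
      linarith
    calc K * ((X + 1 : ℕ) : ℝ) ^ (3 / 2 : ℝ) ≤ K * ((2 : ℝ) ^ (3 / 2 : ℝ) * (X : ℝ) ^ (3 / 2 : ℝ)) :=
          mul_le_mul_of_nonneg_left h4 hK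
      _ ≤ K * (8 * (1 / 2 : ℝ) ^ β * (X : ℝ) ^ (3 / 2 : ℝ)) :=
          mul_le_mul_of_nonneg_left (mul_le_mul_of_nonneg_right h6 (by positivity)) hK
      _ = 8 * K * ((X : ℝ) ^ (3 / 2 : ℝ) * (1 / 2 : ℝ) ^ β) := by ring
      _ = 8 * K * (X : ℝ) ^ s * ((X : ℝ) * (1 / 2)) ^ β := by rw [← h5]; ring
  have hSle : (#S : ℝ) ≤ 8 * K * (X : ℝ) ^ s := by
    have h4 : 0 < ((X : ℝ) * (1 / 2)) ^ β := by positivity
    exact le_of_mul_le_mul_right (hlow.trans hup) h4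
  calc ({t : ℕ | 1 ≤ t ∧ t ≤ X ∧ ¬ ‖a t‖ ≤ (t : ℝ) ^ (1 / 4 + ε)}.ncard : ℝ)
      ≤ C * ((X / 2 : ℕ) : ℝ) ^ s + 8 * K * (X : ℝ) ^ s := by linarith
    _ ≤ C * ((X : ℝ) ^ s * (1 / 2 : ℝ) ^ s) + 8 * K * (X : ℝ) ^ s := by
        have := mul_le_mul_of_nonneg_left h3 hC0
        linarith
    _ = (C * (1 / 2 : ℝ) ^ s + 8 * K) * (X : ℝ) ^ s := by ring
    _ = C * (X : ℝ) ^ s := by rw [hCeq]

/-- the exceptional set, homogeneous form -/
theorem exceptional' {K : ℝ} (hK : 0 ≤ K) {ε : ℝ} (hε : 0 < ε) (hε2 : ε < 1 / 2) :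
    ∃ C : ℝ, 0 ≤ C ∧ ∀ (a : ℕ → ℂ) (B : ℝ), 0 ≤ B →
      (∀ N : ℕ, 1 ≤ N → ∑ n ∈ range N, ‖a n‖ ^ 2 ≤ K * B ^ 2 * (N : ℝ) ^ (3 / 2 : ℝ)) →
      ∀ X : ℕ, ({t : ℕ | 1 ≤ t ∧ t ≤ X ∧ ¬ ‖a t‖ ≤ B * (t : ℝ) ^ (1 / 4 + ε)}.ncard : ℝ) ≤
        C * (X : ℝ) ^ (1 - 2 * ε) := by
  obtain ⟨C, hC0, hC⟩ := exceptional hK hε hε2
  refine ⟨C, hC0, fun a B hB ha X => ?_⟩
  rcases hB.eq_or_lt with rfl | hB
  · have h1 : {t : ℕ | 1 ≤ t ∧ t ≤ X ∧ ¬ ‖a t‖ ≤ 0 * (t : ℝ) ^ (1 / 4 + ε)} = ∅ := by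
      ext t
      simp only [Set.mem_ofPred_eq, Set.mem_empty_iff_false, iff_false]
      rintro ⟨h1, h2, h3⟩
      apply h3
      have h4 := ha (t + 1) (by omega)
      have h5 : ‖a t‖ ^ 2 ≤ ∑ n ∈ range (t + 1), ‖a n‖ ^ 2 :=
        single_le_sum (f := fun n => ‖a n‖ ^ 2) (fun i _ => by positivity) (mem_range.2 (by omega))
      have h6 : ‖a t‖ ^ 2 ≤ 0 := by
        refine (h5.trans h4).trans (le_of_eq ?_)
        ring
      have h7 : ‖a t‖ = 0 := by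
        have := sq_nonneg ‖a t‖
        exact pow_eq_zero_iff (two_ne_zero) |>.1 (le_antisymm h6 this)
      rw [h7]
      simp
    rw [h1, Set.ncard_empty, Nat.cast_zero]
    positivity
  · have h1 := hC (fun n => a n / B) (fun N hN => by
      have h2 : ∑ n ∈ range N, ‖a n / (B : ℂ)‖ ^ 2 = (∑ n ∈ range N, ‖a n‖ ^ 2) / B ^ 2 := by
        rw [sum_div]
        apply sum_congr rfl
        intro n _
        rw [norm_div, Complex.norm_real, Real.norm_eq_abs, abs_of_pos hB, div_pow]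
      rw [h2, div_le_iff₀ (by positivity)]
      have := ha N hN
      nlinarith) X
    refine le_trans (le_of_eq ?_) h1
    congr 2
    ext t
    simp only [Set.mem_ofPred_eq]
    rw [norm_div, Complex.norm_real, Real.norm_eq_abs, abs_of_pos hB, div_le_iff₀ hB, mul_comm B]

end Pool.Agent.N903.HW
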